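import Mathlib
import Pool.Agent.P.MP_c7085a_an.Dev
import Pool.Agent.P.MP_c7085a_an.Sqrt

set_option autoImplicit false

open scoped Manifold ContDiff

namespace Pool.Agent.Results.MP_c7085a_an.Separating

universe u

/-- There is a compact connected complex manifold `X` of dimension 3 such that every connected
two-sheeted covering `p : D → Δ² ∖ ℝ²` (with a complex structure making `p` holomorphic) admits
an injective holomorphic map `f : D → X`. -/
theorem result :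
    ∃ (X : Type) (_ : TopologicalSpace X) (_ : ChartedSpace (ℂ × ℂ × ℂ) X),
      IsManifold 𝓘(ℂ, ℂ × ℂ × ℂ) ω X ∧ T2Space X ∧ CompactSpace X ∧ ConnectedSpace X ∧
      ∀ (D : Type u) [TopologicalSpace D] [ConnectedSpace D] [ChartedSpace (ℂ × ℂ) D]
        [IsManifold 𝓘(ℂ, ℂ × ℂ) ω D]
        (p : D → {z : ℂ × ℂ // ‖z.1‖ < 1 ∧ ‖z.2‖ < 1 ∧ ¬ (z.1.im = 0 ∧ z.2.im = 0)}),
        IsCoveringMap p → (∀ z, (p ⁻¹' {z}).ncard = 2) →
        MDifferentiable 𝓘(ℂ, ℂ × ℂ) 𝓘(ℂ, ℂ × ℂ) (fun x : D => (p x).1) →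
        ∃ f : D → X, MDifferentiable 𝓘(ℂ, ℂ × ℂ) 𝓘(ℂ, ℂ × ℂ × ℂ) f ∧ Function.Injective f := by
  refine ⟨P.MP_c7085a_an.X, inferInstance, P.MP_c7085a_an.devData.chartedSpace,
    P.MP_c7085a_an.devData.isManifold, inferInstance, inferInstance, inferInstance, ?_⟩
  intro D _ _ _ _ p hp h2 hhol
  obtain ⟨s, hs, hs0, hs2, hinj⟩ := P.MP_c7085a_an.exists_sqrt hp h2
  exact P.MP_c7085a_an.exists_injective (fun x => (p x).1) hhol s hs hs0 hs2
    fun x y h => hinj x y (Subtype.ext h)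

end Pool.Agent.Results.MP_c7085a_an.Separating
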